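import Mathlib

/-!
# Hermite interpolation at double nodes: the leading coefficient
-/

namespace Pool.Agent.Lib.MP_4eb8d9_nt.Dis

open Polynomial Finset

/-- `P'(a)` for `P = ∏_{c ∈ E} (X - c)`. -/
noncomputable def Qa (E : Finset ℤ) (a : ℤ) : ℚ := ∏ c ∈ E.erase a, ((a : ℚ) - c)

/-- `∑_{c ≠ a} 1 / (a - c)`. -/
noncomputable def Sa (E : Finset ℤ) (a : ℤ) : ℚ := ∑ c ∈ E.erase a, ((a : ℚ) - c)⁻¹

/-- `∏_{c ≠ a} (X - c)`. -/
noncomputable def La (E : Finset ℤ) (a : ℤ) : ℚ[X] := ∏ c ∈ E.erase a, (X - C (c : ℚ))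

lemma Qa_ne (E : Finset ℤ) (a : ℤ) : Qa E a ≠ 0 := by
  unfold Qa
  rw [Finset.prod_ne_zero_iff]
  intro c hc
  have h1 : c ≠ a := (Finset.mem_erase.1 hc).1
  rw [sub_ne_zero]
  exact_mod_cast h1.symm

lemma La_eval_self (E : Finset ℤ) (a : ℤ) : (La E a).eval (a : ℚ) = Qa E a := by
  unfold La Qa
  rw [eval_prod]
  simp

lemma La_eval_ne (E : Finset ℤ) {a k : ℤ} (hk : k ∈ E) (hka : k ≠ a) :
    (La E a).eval (k : ℚ) = 0 := by
  unfold La
  rw [eval_prod]
  apply Finset.prod_eq_zero (Finset.mem_erase.2 ⟨hka, hk⟩)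
  simp

lemma La_deriv_self (E : Finset ℤ) (a : ℤ) :
    (derivative (La E a)).eval (a : ℚ) = Qa E a * Sa E a := by
  unfold La Sa
  rw [derivative_prod_finset, eval_finsetSum, Finset.mul_sum]
  apply Finset.sum_congr rfl
  intro c hc
  have hca : ((a : ℚ) - c) ≠ 0 := by
    have h1 : c ≠ a := (Finset.mem_erase.1 hc).1
    rw [sub_ne_zero]
    exact_mod_cast h1.symm
  rw [eval_mul, eval_prod]
  unfold Qa
  rw [← Finset.mul_prod_erase _ _ hc]
  simp only [derivative_sub, derivative_X, derivative_C, sub_zero, eval_one, mul_one, eval_sub,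
    eval_X, eval_C]
  field_simp

lemma La_monic (E : Finset ℤ) (a : ℤ) : (La E a).Monic := monic_prod_of_monic _ _ fun _ _ =>
  monic_X_sub_C _

lemma La_natDegree (E : Finset ℤ) {a : ℤ} (ha : a ∈ E) : (La E a).natDegree + 1 = E.card := by
  unfold La
  rw [natDegree_prod_of_monic _ _ fun _ _ => monic_X_sub_C _]
  simp only [natDegree_X_sub_C, Finset.sum_const, smul_eq_mul, mul_one]
  exact Finset.card_erase_add_one ha

/-- The Hermite interpolation polynomial. -/
noncomputable def Her (E : Finset ℤ) (Ψ : ℚ[X]) : ℚ[X] :=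
  ∑ a ∈ E, C ((Qa E a ^ 2)⁻¹) * ((C (Ψ.eval (a : ℚ)) +
    C ((derivative Ψ).eval (a : ℚ) - 2 * Sa E a * Ψ.eval (a : ℚ)) * (X - C (a : ℚ)))
      * La E a ^ 2)

lemma Her_eval (E : Finset ℤ) (Ψ : ℚ[X]) {k : ℤ} (hk : k ∈ E) :
    (Her E Ψ).eval (k : ℚ) = Ψ.eval (k : ℚ) := by
  unfold Her
  rw [eval_finsetSum, Finset.sum_eq_single k]
  · simp only [eval_mul, eval_C, eval_add, eval_sub, eval_X, sub_self, mul_zero, add_zero,
      eval_pow, La_eval_self]
    have := Qa_ne E k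
    field_simp
  · intro a _ hak
    simp only [eval_mul, eval_pow, La_eval_ne E hk hak.symm]
    ring
  · intro h; exact absurd hk h

lemma Her_deriv (E : Finset ℤ) (Ψ : ℚ[X]) {k : ℤ} (hk : k ∈ E) :
    (derivative (Her E Ψ)).eval (k : ℚ) = (derivative Ψ).eval (k : ℚ) := by
  unfold Her
  rw [derivative_sum, eval_finsetSum, Finset.sum_eq_single k]
  · simp only [derivative_mul, derivative_C, derivative_add, derivative_sub, derivative_X,
      derivative_pow, eval_mul, eval_C, eval_add, eval_sub, eval_X, eval_pow, La_eval_self,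
      La_deriv_self, sub_self, sub_zero, mul_zero, zero_mul, add_zero, zero_add,
      mul_one]
    have := Qa_ne E k
    norm_num
    field_simp
    ring
  · intro a _ hak
    simp only [derivative_mul, derivative_C, derivative_add, derivative_sub, derivative_X,
      derivative_pow, eval_mul, eval_C, eval_add, eval_sub, eval_X, eval_pow,
      La_eval_ne E hk hak.symm, eval_zero, eval_one, zero_mul, zero_add]
    norm_num
  · intro h; exact absurd hk h

lemma Her_natDegree (E : Finset ℤ) (Ψ : ℚ[X]) : (Her E Ψ).natDegree ≤ 2 * E.card - 1 := by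
  unfold Her
  apply natDegree_sum_le_of_forall_le
  intro a ha
  have h1 := La_natDegree E ha
  refine (natDegree_C_mul_le _ _).trans ?_
  refine natDegree_mul_le.trans ?_
  have h2 : (C (Ψ.eval (a : ℚ)) +
    C ((derivative Ψ).eval (a : ℚ) - 2 * Sa E a * Ψ.eval (a : ℚ)) * (X - C (a : ℚ))).natDegree
      ≤ 1 := by
    refine (natDegree_add_le _ _).trans ?_
    apply max_le
    · simp
    · refine (natDegree_C_mul_le _ _).trans ?_
      rw [natDegree_X_sub_C]
  have h3 : (La E a ^ 2).natDegree ≤ 2 * (La E a).natDegree := natDegree_pow_le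
  omega

lemma Her_coeff (E : Finset ℤ) (Ψ : ℚ[X]) :
    (Her E Ψ).coeff (2 * E.card - 1)
      = ∑ a ∈ E, ((derivative Ψ).eval (a : ℚ) - 2 * Sa E a * Ψ.eval (a : ℚ)) / Qa E a ^ 2 := by
  unfold Her
  rw [finsetSum_coeff]
  apply Finset.sum_congr rfl
  intro a ha
  have h1 := La_natDegree E ha
  have hmon : (La E a ^ 2).Monic := (La_monic E a).pow 2
  have hdeg : (La E a ^ 2).natDegree = 2 * (La E a).natDegree := (La_monic E a).natDegree_pow 2
  have hc1 : (La E a ^ 2).coeff (2 * E.card - 1) = 0 := by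
    apply coeff_eq_zero_of_natDegree_lt
    omega
  have hmon2 : ((X - C (a : ℚ)) * La E a ^ 2).Monic := (monic_X_sub_C _).mul hmon
  have hdeg2 : ((X - C (a : ℚ)) * La E a ^ 2).natDegree = 2 * E.card - 1 := by
    rw [(monic_X_sub_C _).natDegree_mul hmon, hdeg, natDegree_X_sub_C]
    omega
  have hc2 : ((X - C (a : ℚ)) * La E a ^ 2).coeff (2 * E.card - 1) = 1 := by
    rw [← hdeg2]
    exact hmon2
  rw [add_mul, mul_assoc (C ((derivative Ψ).eval (a : ℚ) - 2 * Sa E a * Ψ.eval (a : ℚ))),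
    coeff_C_mul, coeff_add, coeff_C_mul, coeff_C_mul, hc1, hc2]
  field_simp
  ring

/-- Hermite interpolation is exact in degrees `< 2 |E|`. -/
lemma Her_eq (E : Finset ℤ) (Ψ : ℚ[X]) (hE : E.Nonempty) (hΨ : Ψ.natDegree ≤ 2 * E.card - 1) :
    Her E Ψ = Ψ := by
  by_contra hne
  have hne' : Her E Ψ - Ψ ≠ 0 := sub_ne_zero.2 hne
  have hcard : 1 ≤ E.card := Finset.card_pos.2 hE
  have hdvd : (∏ k ∈ E, (X - C (k : ℚ)) ^ 2) ∣ Her E Ψ - Ψ := by
    apply Finset.prod_dvd_of_coprime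
    · intro a _ b _ hab
      apply IsCoprime.pow
      apply pairwise_coprime_X_sub_C (K := ℚ) (I := ℤ) (s := fun z : ℤ => (z : ℚ)) _ hab
      exact Int.cast_injective
    · intro k hk
      have h1 : 1 < rootMultiplicity (k : ℚ) (Her E Ψ - Ψ) := by
        rw [one_lt_rootMultiplicity_iff_isRoot hne']
        constructor
        · rw [IsRoot.def, eval_sub, Her_eval E Ψ hk, sub_self]
        · rw [IsRoot.def, derivative_sub, eval_sub, Her_deriv E Ψ hk, sub_self]
      exact (le_rootMultiplicity_iff hne').1 h1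
  have hdeg := natDegree_le_of_dvd hdvd hne'
  have hdeg2 : (∏ k ∈ E, (X - C (k : ℚ)) ^ 2).natDegree = 2 * E.card := by
    rw [natDegree_prod_of_monic _ _ fun _ _ => (monic_X_sub_C _).pow 2]
    have : ∀ k ∈ E, ((X - C (k : ℚ)) ^ 2).natDegree = 2 := by
      intro k _
      rw [(monic_X_sub_C _).natDegree_pow, natDegree_X_sub_C]
    rw [Finset.sum_congr rfl this]
    simp [mul_comm]
  have hdeg3 : (Her E Ψ - Ψ).natDegree ≤ 2 * E.card - 1 :=
    (natDegree_sub_le _ _).trans (max_le (Her_natDegree E Ψ) hΨ)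
  omega

/-- The leading coefficient formula. -/
theorem hermite (E : Finset ℤ) (Ψ : ℚ[X]) (hE : E.Nonempty) (hΨ : Ψ.natDegree ≤ 2 * E.card - 1) :
    ∑ a ∈ E, ((derivative Ψ).eval (a : ℚ) - 2 * Sa E a * Ψ.eval (a : ℚ)) / Qa E a ^ 2
      = Ψ.coeff (2 * E.card - 1) := by
  rw [← Her_coeff E Ψ, Her_eq E Ψ hE hΨ]

/-- the double pole coefficients -/
noncomputable def be (E : Finset ℤ) (a : ℤ) : ℚ := - a / Qa E a ^ 2

/-- the residues -/
noncomputable def ga (E : Finset ℤ) (a : ℤ) : ℚ := (1 - 2 * a * Sa E a) / Qa E a ^ 2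

lemma moment (E : Finset ℤ) (hE : E.Nonempty) (p : ℕ) (hp : p + 1 ≤ 2 * E.card - 1) :
    ∑ a ∈ E, (ga E a * (a : ℚ) ^ p - be E a * (p * (a : ℚ) ^ (p - 1)))
      = if p + 1 = 2 * E.card - 1 then 1 else 0 := by
  have h := hermite E (X ^ (p + 1)) hE (by rw [natDegree_X_pow]; exact hp)
  rw [coeff_X_pow] at h
  have h2 : (if 2 * E.card - 1 = p + 1 then (1:ℚ) else 0)
      = if p + 1 = 2 * E.card - 1 then 1 else 0 := by
    by_cases h3 : p + 1 = 2 * E.card - 1
    · rw [if_pos h3, if_pos h3.symm]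
    · rw [if_neg h3, if_neg (Ne.symm h3)]
  rw [← h2, ← h]
  apply Finset.sum_congr rfl
  intro a _
  unfold ga be
  rw [derivative_X_pow]
  simp only [eval_mul, eval_C, eval_pow, eval_X, Nat.add_sub_cancel, Nat.cast_add, Nat.cast_one]
  rcases p with _ | p
  · simp; ring
  · simp only [Nat.add_sub_cancel, Nat.cast_add, Nat.cast_one]
    ring

end Pool.Agent.Lib.MP_4eb8d9_nt.Dis
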