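import Mathlib

/-!
# Asymptotics of `∑ (α_a + γ_a N) log (1 - a / N)`
-/

namespace Pool.Agent.Lib.MP_4eb8d9_nt.Dis

open Filter Topology Finset

lemma main_id (E : Finset ℤ) (α γ : ℤ → ℝ) (T : ℕ) (hT : 1 ≤ T)
    (h1 : ∑ a ∈ E, γ a * (a:ℝ) = 0)
    (hp : ∀ p : ℕ, 1 ≤ p → p < T →
      (∑ a ∈ E, α a * (a:ℝ) ^ p) / p + (∑ a ∈ E, γ a * (a:ℝ) ^ (p + 1)) / (p + 1) = 0)
    (N : ℝ) (hN : N ≠ 0) :
    N ^ T * ∑ a ∈ E, (α a + γ a * N) * ∑ i ∈ range (T + 1), (a / N : ℝ) ^ (i + 1) / (i + 1)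
      = ((∑ a ∈ E, α a * (a:ℝ) ^ T) / T + (∑ a ∈ E, γ a * (a:ℝ) ^ (T + 1)) / (T + 1))
        + (∑ a ∈ E, α a * (a:ℝ) ^ (T + 1)) / (T + 1) * N⁻¹ := by
  have e1 : ∑ a ∈ E, (α a + γ a * N) * ∑ i ∈ range (T + 1), (a / N : ℝ) ^ (i + 1) / (i + 1)
      = ∑ i ∈ range (T + 1), (∑ a ∈ E, α a * (a:ℝ) ^ (i + 1)) / (((i:ℝ) + 1) * N ^ (i + 1))
        + ∑ i ∈ range (T + 1), (∑ a ∈ E, γ a * (a:ℝ) ^ (i + 1)) / (((i:ℝ) + 1) * N ^ i) := by
    simp_rw [add_mul, Finset.mul_sum]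
    rw [Finset.sum_add_distrib]
    congr 1
    · rw [Finset.sum_comm]
      apply Finset.sum_congr rfl
      intro i _
      rw [Finset.sum_div]
      apply Finset.sum_congr rfl
      intro a _
      rw [div_pow]
      have : (i:ℝ) + 1 ≠ 0 := by positivity
      field_simp
    · rw [Finset.sum_comm]
      apply Finset.sum_congr rfl
      intro i _
      rw [Finset.sum_div]
      apply Finset.sum_congr rfl
      intro a _
      rw [div_pow, pow_succ N i]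
      have : (i:ℝ) + 1 ≠ 0 := by positivity
      field_simp
  have e2 : ∑ i ∈ range T, (∑ a ∈ E, α a * (a:ℝ) ^ (i + 1)) / (((i:ℝ) + 1) * N ^ (i + 1))
      + ∑ i ∈ range T, (∑ a ∈ E, γ a * (a:ℝ) ^ (i + 1 + 1)) / ((((i + 1 : ℕ):ℝ) + 1) * N ^ (i + 1))
      = ((∑ a ∈ E, α a * (a:ℝ) ^ T) / T + (∑ a ∈ E, γ a * (a:ℝ) ^ (T + 1)) / (T + 1)) / N ^ T := by
    rw [← Finset.sum_add_distrib, Finset.sum_eq_single (T - 1)]
    · have h2 : T - 1 + 1 = T := by omega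
      have h3 : (((T - 1 : ℕ) : ℝ) + 1) = T := by
        rw [← h2]; push_cast; simp
      rw [h2, h3]
      have hT0 : (T:ℝ) ≠ 0 := by
        have : (1:ℝ) ≤ T := by exact_mod_cast hT
        linarith
      have hT1 : (T:ℝ) + 1 ≠ 0 := by positivity
      field_simp
    · intro i hi hiT
      have hi' := Finset.mem_range.1 hi
      have h4 := hp (i + 1) (by omega) (by omega)
      have hi1 : (i:ℝ) + 1 ≠ 0 := by positivity
      have hi2 : (i:ℝ) + 1 + 1 ≠ 0 := by positivity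
      push_cast at h4 ⊢
      have h5 : (∑ a ∈ E, α a * (a:ℝ) ^ (i + 1)) / (((i:ℝ) + 1) * N ^ (i + 1))
        + (∑ a ∈ E, γ a * (a:ℝ) ^ (i + 1 + 1)) / (((i:ℝ) + 1 + 1) * N ^ (i + 1))
        = ((∑ a ∈ E, α a * (a:ℝ) ^ (i + 1)) / ((i:ℝ) + 1)
          + (∑ a ∈ E, γ a * (a:ℝ) ^ (i + 1 + 1)) / ((i:ℝ) + 1 + 1)) / N ^ (i + 1) := by
        field_simp
      rw [h5, h4, zero_div]
    · intro h
      exact absurd (Finset.mem_range.2 (by omega)) h
  rw [e1, Finset.sum_range_succ, Finset.sum_range_succ' (fun i => (∑ a ∈ E, γ a * (a:ℝ) ^ (i + 1)) /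
    (((i:ℝ) + 1) * N ^ i)) T]
  have e3 : (∑ a ∈ E, γ a * (a:ℝ) ^ (0 + 1)) / ((((0:ℕ):ℝ) + 1) * N ^ 0) = 0 := by
    simp only [zero_add, pow_one, h1, zero_div]
  rw [e3, add_zero]
  have e4 : ∀ x y z : ℝ, x + y + z = (x + z) + y := fun x y z => by ring
  rw [e4, e2, mul_add]
  have hT1 : (T:ℝ) + 1 ≠ 0 := by positivity
  congr 1
  · field_simp
  · rw [pow_succ N T]
    field_simp

theorem log_asymp (E : Finset ℤ) (α γ : ℤ → ℝ) (T : ℕ) (hT : 1 ≤ T)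
    (h1 : ∑ a ∈ E, γ a * (a:ℝ) = 0)
    (hp : ∀ p : ℕ, 1 ≤ p → p < T →
      (∑ a ∈ E, α a * (a:ℝ) ^ p) / p + (∑ a ∈ E, γ a * (a:ℝ) ^ (p + 1)) / (p + 1) = 0) :
    Tendsto (fun N : ℕ => (N:ℝ) ^ T * ∑ a ∈ E, (α a + γ a * N) * Real.log (1 - a / N)) atTop
      (𝓝 (-((∑ a ∈ E, α a * (a:ℝ) ^ T) / T + (∑ a ∈ E, γ a * (a:ℝ) ^ (T + 1)) / (T + 1)))) := by
  set MT : ℝ := (∑ a ∈ E, α a * (a:ℝ) ^ T) / T + (∑ a ∈ E, γ a * (a:ℝ) ^ (T + 1)) / (T + 1)
    with hMT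
  set W : ℝ := (∑ a ∈ E, α a * (a:ℝ) ^ (T + 1)) / (T + 1) with hW
  set K : ℝ := ∑ a ∈ E, (|α a| + |γ a|) * (2 * |(a:ℝ)| ^ (T + 2)) with hK
  have hinv : Tendsto (fun N : ℕ => ((N:ℝ))⁻¹) atTop (𝓝 0) := tendsto_inv_atTop_nhds_zero_nat
  have hlim : Tendsto (fun N : ℕ => -(MT + W * ((N:ℝ))⁻¹)) atTop (𝓝 (-MT)) := by
    have := (tendsto_const_nhds (x := MT)).add (hinv.const_mul W)
    simp only [mul_zero, add_zero] at this
    exact this.neg
  have herr : Tendsto (fun N : ℕ => (N:ℝ) ^ T * ∑ a ∈ E, (α a + γ a * N) * Real.log (1 - a / N)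
      - (-(MT + W * ((N:ℝ))⁻¹))) atTop (𝓝 0) := by
    have hK0 : Tendsto (fun N : ℕ => K * ((N:ℝ))⁻¹) atTop (𝓝 0) := by
      simpa using hinv.const_mul K
    apply squeeze_zero_norm' _ hK0
    set A : ℕ := E.sup Int.natAbs with hA
    filter_upwards [eventually_ge_atTop (2 * A + 1)] with N hN
    have hN1 : 1 ≤ N := by omega
    have hN0 : (0:ℝ) < N := by exact_mod_cast hN1
    have hN1' : (1:ℝ) ≤ N := by exact_mod_cast hN1
    have hid := main_id E α γ T hT h1 hp (N:ℝ) hN0.ne'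
    rw [← hMT, ← hW] at hid
    rw [← hid, sub_neg_eq_add, ← mul_add, ← Finset.sum_add_distrib]
    have hsum : ∑ a ∈ E, ((α a + γ a * N) * Real.log (1 - a / N) +
        (α a + γ a * N) * ∑ i ∈ range (T + 1), (a / N : ℝ) ^ (i + 1) / (i + 1))
        = ∑ a ∈ E, (α a + γ a * N) * (∑ i ∈ range (T + 1), (a / N : ℝ) ^ (i + 1) / (i + 1)
          + Real.log (1 - a / N)) := by
      apply Finset.sum_congr rfl
      intro a _
      ring
    rw [hsum, norm_mul, Real.norm_eq_abs, Real.norm_eq_abs, abs_of_pos (by positivity)]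
    have hterm : ∀ a ∈ E, |(α a + γ a * N) * (∑ i ∈ range (T + 1), (a / N : ℝ) ^ (i + 1) / (i + 1)
          + Real.log (1 - a / N))| ≤ ((|α a| + |γ a|) * (2 * |(a:ℝ)| ^ (T + 2))) *
            (N * (((N:ℝ)) ^ (T + 2))⁻¹) := by
      intro a ha
      have haA : |(a:ℝ)| ≤ A := by
        have h2 : a.natAbs ≤ A := Finset.le_sup (f := Int.natAbs) ha
        have h3 : ((a.natAbs : ℕ) : ℝ) ≤ A := by exact_mod_cast h2
        rw [Nat.cast_natAbs] at h3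
        push_cast at h3
        exact h3
      have hx : |(a / N : ℝ)| ≤ 1 / 2 := by
        rw [abs_div, abs_of_pos hN0, div_le_div_iff₀ hN0 two_pos]
        have : (2 * (A:ℝ) + 1) ≤ N := by exact_mod_cast hN
        linarith
      have hlog := Real.abs_log_sub_add_sum_range_le (x := (a / N : ℝ)) (by linarith) (T + 1)
      have h4 : |(a / N : ℝ)| ^ (T + 1 + 1) / (1 - |(a / N : ℝ)|) ≤ 2 * |(a / N : ℝ)| ^ (T + 2) := by
        rw [div_le_iff₀ (by linarith)]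
        have h5 : 0 ≤ |(a / N : ℝ)| ^ (T + 2) := by positivity
        have h6 : T + 1 + 1 = T + 2 := rfl
        rw [h6]
        nlinarith
      have h7 : |(a / N : ℝ)| ^ (T + 2) = |(a:ℝ)| ^ (T + 2) * ((N:ℝ) ^ (T + 2))⁻¹ := by
        rw [abs_div, abs_of_pos hN0, div_pow, div_eq_mul_inv]
      rw [abs_mul]
      have h8 : |α a + γ a * N| ≤ (|α a| + |γ a|) * N := by
        calc |α a + γ a * N| ≤ |α a| + |γ a * N| := abs_add_le _ _
          _ = |α a| + |γ a| * N := by rw [abs_mul, abs_of_pos hN0]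
          _ ≤ (|α a| + |γ a|) * N := by nlinarith [abs_nonneg (α a)]
      calc |α a + γ a * N| * |∑ i ∈ range (T + 1), (a / N : ℝ) ^ (i + 1) / (i + 1)
          + Real.log (1 - a / N)|
          ≤ ((|α a| + |γ a|) * N) * (2 * (|(a:ℝ)| ^ (T + 2) * ((N:ℝ) ^ (T + 2))⁻¹)) := by
            apply mul_le_mul h8 _ (abs_nonneg _) (by positivity)
            rw [← h7]
            exact hlog.trans h4
        _ = _ := by ring
    calc (N:ℝ) ^ T * |∑ a ∈ E, (α a + γ a * N) * (∑ i ∈ range (T + 1),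
          (a / N : ℝ) ^ (i + 1) / (i + 1) + Real.log (1 - a / N))|
        ≤ (N:ℝ) ^ T * (K * (N * (((N:ℝ)) ^ (T + 2))⁻¹)) := by
          apply mul_le_mul_of_nonneg_left _ (by positivity)
          refine (Finset.abs_sum_le_sum_abs _ _).trans ?_
          rw [hK, Finset.sum_mul]
          exact Finset.sum_le_sum hterm
      _ = K * ((N:ℝ))⁻¹ := by
          rw [pow_add (N:ℝ) T 2]
          field_simp
  have := herr.add hlim
  simp only [sub_add_cancel, zero_add] at this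
  exact this

end Pool.Agent.Lib.MP_4eb8d9_nt.Dis
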