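import Mathlib
import Pool.Agent.Lib.MP_4eb8d9_nt.DisAlg
import Pool.Agent.Lib.MP_4eb8d9_nt.DisLog

/-!
# The family of exponents attached to a symmetric set of nodes
-/

namespace Pool.Agent.Lib.MP_4eb8d9_nt.Dis

open Filter Topology Finset

/-- constant part of the exponent -/
noncomputable def al (E : Finset ℤ) (a : ℤ) : ℚ := be E a - ga E a * a

lemma Gam (E : Finset ℤ) (hE : E.Nonempty) (p : ℕ) (hp : p + 2 < 2 * E.card) :
    ∑ a ∈ E, ga E a * (a:ℚ) ^ p = p * ∑ a ∈ E, be E a * (a:ℚ) ^ (p - 1) := by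
  have h := moment E hE p (by omega)
  rw [if_neg (by omega), Finset.sum_sub_distrib] at h
  have h2 : ∑ a ∈ E, be E a * (p * (a:ℚ) ^ (p - 1)) = p * ∑ a ∈ E, be E a * (a:ℚ) ^ (p - 1) := by
    rw [Finset.mul_sum]
    apply Finset.sum_congr rfl
    intro a _
    ring
  rw [h2] at h
  linarith

lemma Gam_top (E : Finset ℤ) (hE : E.Nonempty) (p : ℕ) (hp : p + 2 = 2 * E.card) :
    ∑ a ∈ E, ga E a * (a:ℚ) ^ p = p * ∑ a ∈ E, be E a * (a:ℚ) ^ (p - 1) + 1 := by
  have h := moment E hE p (by omega)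
  rw [if_pos (by omega), Finset.sum_sub_distrib] at h
  have h2 : ∑ a ∈ E, be E a * (p * (a:ℚ) ^ (p - 1)) = p * ∑ a ∈ E, be E a * (a:ℚ) ^ (p - 1) := by
    rw [Finset.mul_sum]
    apply Finset.sum_congr rfl
    intro a _
    ring
  rw [h2] at h
  linarith

lemma Alp (E : Finset ℤ) (p : ℕ) :
    ∑ a ∈ E, al E a * (a:ℚ) ^ p
      = ∑ a ∈ E, be E a * (a:ℚ) ^ p - ∑ a ∈ E, ga E a * (a:ℚ) ^ (p + 1) := by
  rw [← Finset.sum_sub_distrib]
  apply Finset.sum_congr rfl
  intro a _
  unfold al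
  ring

lemma Qa_neg (E : Finset ℤ) (hsymm : ∀ a ∈ E, -a ∈ E) (a : ℤ) :
    Qa E (-a) ^ 2 = Qa E a ^ 2 := by
  have h1 : Qa E (-a) = ∏ c ∈ E.erase a, (-1) * ((a:ℚ) - c) := by
    unfold Qa
    apply Finset.prod_nbij' (fun c => -c) (fun c => -c)
    · intro c hc
      rw [Finset.mem_erase] at hc ⊢
      refine ⟨?_, hsymm c hc.2⟩
      intro h
      exact hc.1 (by omega)
    · intro c hc
      rw [Finset.mem_erase] at hc ⊢
      refine ⟨?_, hsymm c hc.2⟩
      intro h
      exact hc.1 (by omega)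
    · intro c _; ring
    · intro c _; ring
    · intro c _
      push_cast
      ring
  rw [h1, Finset.prod_mul_distrib, Finset.prod_const]
  unfold Qa
  rw [mul_pow, ← pow_mul, mul_comm _ 2, pow_mul]
  norm_num

lemma sum_be (E : Finset ℤ) (hsymm : ∀ a ∈ E, -a ∈ E) : ∑ a ∈ E, be E a = 0 := by
  have h1 : ∑ a ∈ E, be E a = ∑ a ∈ E, - be E a := by
    apply Finset.sum_nbij' (fun c => -c) (fun c => -c)
    · intro c hc; exact hsymm c hc
    · intro c hc; exact hsymm c hc
    · intro c _; ring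
    · intro c _; ring
    · intro c _
      unfold be
      rw [Qa_neg E hsymm]
      push_cast
      ring
  rw [Finset.sum_neg_distrib] at h1
  linarith

/-- the relations between the moments -/
lemma rel (E : Finset ℤ) (hE : E.Nonempty) (p : ℕ) (hp1 : 1 ≤ p) (hp : p + 3 < 2 * E.card) :
    (∑ a ∈ E, al E a * (a:ℚ) ^ p) / p + (∑ a ∈ E, ga E a * (a:ℚ) ^ (p + 1)) / (p + 1) = 0 := by
  rw [Alp, Gam E hE (p + 1) (by omega), Nat.add_sub_cancel]
  have h1 : (p:ℚ) ≠ 0 := by
    have : (1:ℚ) ≤ p := by exact_mod_cast hp1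
    linarith
  have h2 : (p:ℚ) + 1 ≠ 0 := by positivity
  push_cast
  field_simp
  ring

lemma rel_top (E : Finset ℤ) (hE : E.Nonempty) (p : ℕ) (hp1 : 1 ≤ p) (hp : p + 3 = 2 * E.card) :
    (∑ a ∈ E, al E a * (a:ℚ) ^ p) / p + (∑ a ∈ E, ga E a * (a:ℚ) ^ (p + 1)) / (p + 1)
      = - (1 / ((p:ℚ) * (p + 1))) := by
  rw [Alp, Gam_top E hE (p + 1) (by omega), Nat.add_sub_cancel]
  have h1 : (p:ℚ) ≠ 0 := by
    have : (1:ℚ) ≤ p := by exact_mod_cast hp1
    linarith
  have h2 : (p:ℚ) + 1 ≠ 0 := by positivity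
  push_cast
  field_simp
  ring

/-- Integral exponents. -/
lemma integral (E : Finset ℤ) : ∃ (D : ℤ) (x y : ℤ → ℤ), 0 < D ∧
    (∀ a ∈ E, ((x a : ℤ) : ℚ) = D * al E a) ∧ (∀ a ∈ E, ((y a : ℤ) : ℚ) = D * ga E a) := by
  classical
  have h1 : ∀ F : Finset ℤ, ∃ D : ℤ, 0 < D ∧ ∀ a ∈ F, (∃ x : ℤ, ((x : ℤ) : ℚ) = D * al E a) ∧
      (∃ y : ℤ, ((y : ℤ) : ℚ) = D * ga E a) := by
    intro F
    induction F using Finset.induction_on with
    | empty => exact ⟨1, one_pos, by simp⟩
    | insert a F _ ih =>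
      obtain ⟨D, hD, hF⟩ := ih
      refine ⟨D * ((al E a).den * (ga E a).den), ?_, ?_⟩
      · have h2 : 0 < (al E a).den := (al E a).den_pos
        have h3 : 0 < (ga E a).den := (ga E a).den_pos
        positivity
      · intro b hb
        rcases Finset.mem_insert.1 hb with rfl | hb
        · constructor
          · refine ⟨D * (ga E b).den * (al E b).num, ?_⟩
            push_cast
            have := Rat.num_div_den (al E b)
            have h0 : ((al E b).den : ℚ) ≠ 0 := by exact_mod_cast (al E b).den_nz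
            rw [div_eq_iff h0] at this
            rw [this]
            ring
          · refine ⟨D * (al E b).den * (ga E b).num, ?_⟩
            push_cast
            have := Rat.num_div_den (ga E b)
            have h0 : ((ga E b).den : ℚ) ≠ 0 := by exact_mod_cast (ga E b).den_nz
            rw [div_eq_iff h0] at this
            rw [this]
            ring
        · obtain ⟨⟨x, hx⟩, ⟨y, hy⟩⟩ := hF b hb
          constructor
          · refine ⟨x * ((al E a).den * (ga E a).den), ?_⟩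
            push_cast
            rw [hx]; ring
          · refine ⟨y * ((al E a).den * (ga E a).den), ?_⟩
            push_cast
            rw [hy]; ring
  obtain ⟨D, hD, hF⟩ := h1 E
  refine ⟨D, fun a => if h : a ∈ E then (hF a h).1.choose else 0,
    fun a => if h : a ∈ E then (hF a h).2.choose else 0, hD, ?_, ?_⟩
  · intro a ha
    simp only [dif_pos ha]
    exact (hF a ha).1.choose_spec
  · intro a ha
    simp only [dif_pos ha]
    exact (hF a ha).2.choose_spec

/-- The family: integral exponents `x a + y a * N` with a tiny logarithmic sum. -/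
theorem family (E : Finset ℤ) (hE : 2 ≤ E.card) (hsymm : ∀ a ∈ E, -a ∈ E) :
    ∃ (x y : ℤ → ℤ) (c : ℝ), 0 < c ∧ (∑ a ∈ E, x a = 0) ∧ (∑ a ∈ E, y a = 0) ∧
      (∀ a ∈ E, (y a = 0 ↔ ga E a = 0)) ∧ (∀ a ∈ E, y a = 0 → a ≠ 0 → x a ≠ 0) ∧
      Tendsto (fun N : ℕ => (N:ℝ) ^ (2 * E.card - 3) *
        ∑ a ∈ E, ((x a : ℝ) + (y a : ℝ) * N) * Real.log (1 - a / N)) atTop (𝓝 c) := by
  have hEne : E.Nonempty := Finset.card_pos.1 (by omega)
  obtain ⟨D, x, y, hD, hx, hy⟩ := integral E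
  have hD0 : (D:ℚ) ≠ 0 := by exact_mod_cast hD.ne'
  set T : ℕ := 2 * E.card - 3 with hT
  have hT1 : 1 ≤ T := by omega
  have hxR : ∀ a ∈ E, ((x a : ℤ) : ℝ) = (D:ℝ) * ((al E a : ℚ) : ℝ) := by
    intro a ha
    have := hx a ha
    exact_mod_cast this
  have hyR : ∀ a ∈ E, ((y a : ℤ) : ℝ) = (D:ℝ) * ((ga E a : ℚ) : ℝ) := by
    intro a ha
    have := hy a ha
    exact_mod_cast this
  have hΓ0 : ∑ a ∈ E, ga E a = 0 := by
    have := Gam E hEne 0 (by omega)
    simpa using this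
  have hΓ1 : ∑ a ∈ E, ga E a * (a:ℚ) = 0 := by
    by_cases h3 : 1 + 2 < 2 * E.card
    · have := Gam E hEne 1 h3
      simp only [pow_one, Nat.cast_one, Nat.sub_self, pow_zero, mul_one, one_mul] at this
      rw [this, sum_be E hsymm]
    · omega
  have hA0 : ∑ a ∈ E, al E a = 0 := by
    have := Alp E 0
    simp only [pow_zero, mul_one, zero_add, pow_one] at this
    rw [this, sum_be E hsymm, hΓ1, sub_zero]
  have hmomx : ∀ p : ℕ, ∑ a ∈ E, ((x a : ℤ) : ℝ) * (a:ℝ) ^ p
      = (D:ℝ) * ((∑ a ∈ E, al E a * (a:ℚ) ^ p : ℚ) : ℝ) := by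
    intro p
    push_cast
    rw [Finset.mul_sum]
    apply Finset.sum_congr rfl
    intro a ha
    rw [hxR a ha]
    ring
  have hmomy : ∀ p : ℕ, ∑ a ∈ E, ((y a : ℤ) : ℝ) * (a:ℝ) ^ p
      = (D:ℝ) * ((∑ a ∈ E, ga E a * (a:ℚ) ^ p : ℚ) : ℝ) := by
    intro p
    push_cast
    rw [Finset.mul_sum]
    apply Finset.sum_congr rfl
    intro a ha
    rw [hyR a ha]
    ring
  have hDR : (0:ℝ) < D := by exact_mod_cast hD
  have hTR : (0:ℝ) < T := by
    have : (1:ℝ) ≤ T := by exact_mod_cast hT1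
    linarith
  refine ⟨x, y, (D:ℝ) * (1 / ((T:ℝ) * (T + 1))), by positivity, ?_, ?_, ?_, ?_, ?_⟩
  · have h1 : ((∑ a ∈ E, x a : ℤ) : ℚ) = D * ∑ a ∈ E, al E a := by
      push_cast
      rw [Finset.mul_sum]
      exact Finset.sum_congr rfl hx
    rw [hA0, mul_zero] at h1
    exact_mod_cast h1
  · have h1 : ((∑ a ∈ E, y a : ℤ) : ℚ) = D * ∑ a ∈ E, ga E a := by
      push_cast
      rw [Finset.mul_sum]
      exact Finset.sum_congr rfl hy
    rw [hΓ0, mul_zero] at h1
    exact_mod_cast h1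
  · intro a ha
    have h1 := hy a ha
    constructor
    · intro h0
      rw [h0, Int.cast_zero] at h1
      rcases mul_eq_zero.1 h1.symm with h | h
      · exact absurd h hD0
      · exact h
    · intro h0
      rw [h0, mul_zero] at h1
      exact_mod_cast h1
  · intro a ha hya ha0 hxa
    have h1 := hx a ha
    have h2 := hy a ha
    rw [hya, Int.cast_zero] at h2
    rw [hxa, Int.cast_zero] at h1
    have hg : ga E a = 0 := (mul_eq_zero.1 h2.symm).resolve_left hD0
    have hal : al E a = 0 := (mul_eq_zero.1 h1.symm).resolve_left hD0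
    unfold al at hal
    rw [hg, zero_mul, sub_zero] at hal
    unfold be at hal
    have hQ := Qa_ne E a
    rw [div_eq_zero_iff] at hal
    rcases hal with h | h
    · apply ha0
      rw [neg_eq_zero] at h
      exact_mod_cast h
    · exact pow_ne_zero 2 hQ h
  · have hmain := log_asymp E (fun a => ((x a : ℤ) : ℝ)) (fun a => ((y a : ℤ) : ℝ)) T hT1
      (by
        have := hmomy 1
        simp only [pow_one] at this
        rw [this, hΓ1]
        simp)
      (by
        intro p hp1 hpT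
        rw [hmomx, hmomy]
        have h1 := rel E hEne p hp1 (by omega)
        have h2 : (((∑ a ∈ E, al E a * (a:ℚ) ^ p) / p
          + (∑ a ∈ E, ga E a * (a:ℚ) ^ (p + 1)) / (p + 1) : ℚ) : ℝ) = 0 := by
          rw [h1]; simp
        rw [Rat.cast_add, Rat.cast_div, Rat.cast_div] at h2
        simp only [Rat.cast_natCast, Rat.cast_add, Rat.cast_one] at h2
        rw [mul_div_assoc, mul_div_assoc, ← mul_add, h2, mul_zero])
    have hlim : -((∑ a ∈ E, ((x a : ℤ) : ℝ) * (a:ℝ) ^ T) / T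
        + (∑ a ∈ E, ((y a : ℤ) : ℝ) * (a:ℝ) ^ (T + 1)) / (T + 1))
        = (D:ℝ) * (1 / ((T:ℝ) * (T + 1))) := by
      rw [hmomx, hmomy]
      have h1 := rel_top E hEne T hT1 (by omega)
      have h2 : (((∑ a ∈ E, al E a * (a:ℚ) ^ T) / T
        + (∑ a ∈ E, ga E a * (a:ℚ) ^ (T + 1)) / (T + 1) : ℚ) : ℝ)
        = - (1 / ((T:ℝ) * (T + 1))) := by
        rw [h1]; push_cast; ring
      rw [Rat.cast_add, Rat.cast_div, Rat.cast_div] at h2
      simp only [Rat.cast_natCast, Rat.cast_add, Rat.cast_one] at h2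
      rw [mul_div_assoc, mul_div_assoc, ← mul_add, h2]
      ring
    rw [hlim] at hmain
    exact hmain

end Pool.Agent.Lib.MP_4eb8d9_nt.Dis
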