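import Mathlib
import Pool.Agent.Lib.MP_4eb8d9_nt.DisMain

/-!
# The set of nodes
-/

namespace Pool.Agent.Lib.MP_4eb8d9_nt.Dis

open Finset

/-- Sixty positive integers `J`; for `s = 30` and `s = 90` one has
`∑_{j ∈ J, j ≠ s} 1 / (s ^ 2 - j ^ 2) = 0`. -/
def J : List ℤ :=
  [2, 9, 12, 18, 22, 30, 36, 38, 42, 48, 66, 72, 90, 102, 105, 108, 114, 126, 130, 138, 150, 170,
    174, 186, 210, 230, 234, 246, 255, 300, 310, 315, 360, 366, 370, 390, 420, 430, 450, 480, 510,
    540, 570, 600, 750, 870, 1110, 1170, 1350, 2010, 2130, 2190, 2250, 2310, 2370, 2430, 2490,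
    2550, 2610, 2670]

/-- The nodes `± j`, `j ∈ J`. -/
def E : Finset ℤ := (J ++ J.map Neg.neg).toFinset

/-- The four nodes with constant exponents. -/
def Z : Finset ℤ := {30, -30, 90, -90}

lemma E_symm : ∀ a ∈ E, -a ∈ E := by decide +kernel

lemma E_zero : (0:ℤ) ∉ E := by decide +kernel

lemma Z_sub : Z ⊆ E := by decide +kernel

lemma Z_card : Z.card = 4 := by decide +kernel

lemma Sa_eq (F : Finset ℤ) (a L : ℤ) (hdvd : ∀ c ∈ F.erase a, (a - c) ∣ L) :
    (L : ℚ) * Sa F a = ((∑ c ∈ F.erase a, L / (a - c) : ℤ) : ℚ) := by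
  unfold Sa
  rw [Finset.mul_sum]
  push_cast
  apply Finset.sum_congr rfl
  intro c hc
  obtain ⟨k, hk⟩ := hdvd c hc
  have hne : a - c ≠ 0 := by
    have := (Finset.mem_erase.1 hc).1
    omega
  have hne' : ((a:ℚ) - c) ≠ 0 := by
    have : ((a - c : ℤ) : ℚ) ≠ 0 := by exact_mod_cast hne
    push_cast at this
    exact this
  rw [hk, Int.mul_ediv_cancel_left _ hne]
  push_cast
  field_simp

lemma ga_iff (F : Finset ℤ) (a L : ℤ) (hL : L ≠ 0) (hdvd : ∀ c ∈ F.erase a, (a - c) ∣ L) :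
    ga F a = 0 ↔ 2 * a * ∑ c ∈ F.erase a, L / (a - c) = L := by
  have h1 := Sa_eq F a L hdvd
  have hL' : (L:ℚ) ≠ 0 := by exact_mod_cast hL
  have hQ := Qa_ne F a
  unfold ga
  rw [div_eq_zero_iff, or_iff_left (pow_ne_zero 2 hQ)]
  constructor
  · intro h
    have h2 : (L:ℚ) * (1 - 2 * a * Sa F a) = 0 := by rw [h, mul_zero]
    have h3 : ((2 * a * ∑ c ∈ F.erase a, L / (a - c) : ℤ) : ℚ) = L := by
      push_cast at h1 ⊢
      rw [← h1]
      linarith
    exact_mod_cast h3
  · intro h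
    have h3 : ((2 * a * ∑ c ∈ F.erase a, L / (a - c) : ℤ) : ℚ) = L := by
      exact_mod_cast h
    rw [Int.cast_mul, ← h1] at h3
    push_cast at h3
    have h4 : (L:ℚ) * (1 - 2 * a * Sa F a) = 0 := by linarith
    exact (mul_eq_zero.1 h4).resolve_left hL'

lemma Z_ga : ∀ a ∈ Z, ga E a = 0 := by
  intro a ha
  have h : a = 30 ∨ a = -30 ∨ a = 90 ∨ a = -90 := by
    simpa [Z] using ha
  rcases h with rfl | rfl | rfl | rfl
  · rw [ga_iff E 30 10477851122138400 (by norm_num) (by decide +kernel)]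
    decide +kernel
  · rw [ga_iff E (-30) 10477851122138400 (by norm_num) (by decide +kernel)]
    decide +kernel
  · rw [ga_iff E 90 125734213465660800 (by norm_num) (by decide +kernel)]
    decide +kernel
  · rw [ga_iff E (-90) 125734213465660800 (by norm_num) (by decide +kernel)]
    decide +kernel

lemma mem12 : (12:ℤ) ∈ E := by decide +kernel

lemma ga12 : ga E 12 ≠ 0 := by
  rw [Ne, ga_iff E 12 2573314141584845127559995478605231737555189729502191264217453540684411174153437170927200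
    (by norm_num) (by decide +kernel)]
  decide +kernel

end Pool.Agent.Lib.MP_4eb8d9_nt.Dis
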